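import Pool.Agent.X86.PF.Final

set_option autoImplicit false

open Polynomial

namespace Pool.Agent.Results.MP_f878ff_nt.FiniteRepresentations

/-- Pisot numbers: real algebraic integers `β > 1` all of whose other conjugates (complex roots of
the minimal polynomial) have modulus `< 1`. -/
structure IsPisot (β : ℝ) : Prop where
  one_lt : 1 < β
  integral : IsIntegral ℤ β
  conj : ∀ z : ℂ, aeval z (minpoly ℤ β) = 0 → z ≠ (β : ℂ) → ‖z‖ < 1

/-- `x = ∑_{j=1}^k a_j β^{-j}` for some `k ≥ 0` and digits `a_j ∈ {0,…,m}` (the digit `a_{j+1}` is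
`d j`). -/
def FiniteRep (β : ℝ) (m : ℕ) (x : ℝ) : Prop :=
  ∃ (k : ℕ) (d : ℕ → ℕ), (∀ j, d j ≤ m) ∧ x = ∑ j ∈ Finset.range k, (d j : ℝ) / β ^ (j + 1)

/-- Affirmative answer to Q1, even without the unit hypothesis: for every real cubic Pisot number
`β` with a non-real conjugate there is `m` such that every element of `ℤ[β] ∩ [0,1)` has a finite
`β`-representation over the alphabet `{0,…,m}`. -/
theorem result (β : ℝ) (hβ : IsPisot β) (hdeg : (minpoly ℤ β).natDegree = 3)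
    (hconj : ∃ z : ℂ, aeval z (minpoly ℤ β) = 0 ∧ z.im ≠ 0) :
    ∃ m : ℕ, ∀ x ∈ Algebra.adjoin ℤ {β}, 0 ≤ x → x < 1 → FiniteRep β m x := by
  obtain ⟨w, hw0, him⟩ := hconj
  set f := minpoly ℤ β with hf
  have hmon : f.Monic := minpoly.monic hβ.integral
  have hlead : f.coeff 3 = 1 := by rw [← hdeg]; exact hmon
  have hroot : aeval β f = 0 := minpoly.aeval ℤ β
  have hw1 : ‖w‖ < 1 := hβ.conj w hw0 (fun h => him (by rw [h]; exact Complex.ofReal_im β))
  have e1 : β ^ 3 = ((-f.coeff 2 : ℤ) : ℝ) * β ^ 2 + ((-f.coeff 1 : ℤ) : ℝ) * β +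
      ((-f.coeff 0 : ℤ) : ℝ) := by
    rw [aeval_eq_sum_range, hdeg] at hroot
    simp only [Finset.sum_range_succ, Finset.sum_range_zero, hlead, zsmul_eq_mul] at hroot
    push_cast at hroot ⊢
    linear_combination hroot
  have e2 : w ^ 3 = ((-f.coeff 2 : ℤ) : ℂ) * w ^ 2 + ((-f.coeff 1 : ℤ) : ℂ) * w +
      ((-f.coeff 0 : ℤ) : ℂ) := by
    rw [aeval_eq_sum_range, hdeg] at hw0
    simp only [Finset.sum_range_succ, Finset.sum_range_zero, hlead, zsmul_eq_mul] at hw0
    push_cast at hw0 ⊢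
    linear_combination hw0
  obtain ⟨m, hm⟩ := Pool.Agent.X86.PF.main hβ.one_lt e1 e2 him hw1
  refine ⟨m, fun x hx h0 h1 => ?_⟩
  have hcoord : ∀ p : ℤ[X], ∃ y : Fin 3 → ℤ, aeval β p = Pool.Agent.X86.PF.vr β y := by
    intro p
    induction p using Polynomial.induction_on' with
    | add p q hp hq =>
      obtain ⟨y, hy⟩ := hp
      obtain ⟨z, hz⟩ := hq
      refine ⟨y + z, ?_⟩
      rw [map_add, hy, hz]
      simp only [Pool.Agent.X86.PF.vr, Pi.add_apply]
      push_cast; ring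
    | monomial n c =>
      refine ⟨fun i => c * Pool.Agent.X86.PF.pw (-f.coeff 2) (-f.coeff 1) (-f.coeff 0) n i, ?_⟩
      rw [aeval_monomial, ← Pool.Agent.X86.PF.vr_pw e1 n]
      simp only [Pool.Agent.X86.PF.vr, algebraMap_int_eq, eq_intCast]
      push_cast; ring
  rw [Algebra.adjoin_singleton_eq_range_aeval] at hx
  obtain ⟨p, rfl⟩ := hx
  obtain ⟨y, hy⟩ := hcoord p
  have hy' : (aeval β) p = Pool.Agent.X86.PF.vr β y := hy
  change 0 ≤ (aeval β) p at h0
  change (aeval β) p < 1 at h1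
  change FiniteRep β m ((aeval β) p)
  rw [hy'] at h0 h1 ⊢
  exact hm y h0 h1

end Pool.Agent.Results.MP_f878ff_nt.FiniteRepresentations
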